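import Pool.Agent.Q96.ID.Stm

/-! Project ID: injective resolutions and `Ext`. -/

open Cardinal Set Filter Topology

namespace Q96.ID

section

variable (𝕜 : Type) [RCLike 𝕜] (X : Type) [NormedAddCommGroup X] [NormedSpace 𝕜 X]

/-- An injective resolution `0 → X → E 0 → E 1 → ⋯` of the Banach space `X`: an exact sequence of
bounded operators, all `E n` injective Banach spaces. -/
structure InjRes where
  /-- the injective spaces -/
  E : ℕ → Type
  [grp : ∀ n, NormedAddCommGroup (E n)]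
  [spc : ∀ n, NormedSpace 𝕜 (E n)]
  [cpl : ∀ n, CompleteSpace (E n)]
  inj : ∀ n, Inj 𝕜 (E n)
  /-- the embedding of `X` -/
  aug : X →L[𝕜] E 0
  /-- the differentials -/
  d : ∀ n, E n →L[𝕜] E (n + 1)
  aug_injective : Function.Injective aug
  exact_zero : ∀ y, d 0 y = 0 ↔ ∃ x, aug x = y
  exact_succ : ∀ n y, d (n + 1) y = 0 ↔ ∃ x, d n x = y

attribute [instance] InjRes.grp InjRes.spc InjRes.cpl

variable {𝕜 X}

/-- `Ext^(n+1)(Y, X) = 0`, computed with the injective resolution `I` of `X`: in the complex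
`Hom(Y, E 0) → Hom(Y, E 1) → ⋯` every cocycle of degree `n + 1` is a coboundary. -/
def InjRes.ExtSuccVanishes (I : InjRes 𝕜 X) (Y : Type) [NormedAddCommGroup Y] [NormedSpace 𝕜 Y]
    (n : ℕ) : Prop :=
  ∀ f : Y →L[𝕜] I.E (n + 1), (∀ y, I.d (n + 1) (f y) = 0) →
    ∃ F : Y →L[𝕜] I.E n, ∀ y, I.d n (F y) = f y

/-- the cocycles of degree `n + 1` -/
def InjRes.Z (I : InjRes 𝕜 X) (n : ℕ) : Submodule 𝕜 (I.E (n + 1)) :=
  LinearMap.ker (I.d (n + 1) : I.E (n + 1) →ₗ[𝕜] I.E (n + 1 + 1))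

theorem InjRes.mem_Z (I : InjRes 𝕜 X) (n : ℕ) (y : I.E (n + 1)) :
    y ∈ I.Z n ↔ I.d (n + 1) y = 0 := LinearMap.mem_ker

instance (I : InjRes 𝕜 X) (n : ℕ) : CompleteSpace (I.Z n) := by
  have : IsClosed (I.Z n : Set (I.E (n + 1))) := (I.d (n + 1)).isClosed_ker
  exact this.completeSpace_coe

/-- `E n → Z n` -/
noncomputable def InjRes.dZ (I : InjRes 𝕜 X) (n : ℕ) : I.E n →L[𝕜] I.Z n :=
  (I.d n).codRestrict (I.Z n) (fun x => (I.mem_Z n _).2 ((I.exact_succ n _).2 ⟨x, rfl⟩))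

theorem InjRes.coe_dZ (I : InjRes 𝕜 X) (n : ℕ) (x : I.E n) : (I.dZ n x : I.E (n + 1)) = I.d n x :=
  rfl

theorem InjRes.dZ_surj (I : InjRes 𝕜 X) (n : ℕ) : Function.Surjective (I.dZ n) := by
  intro z
  obtain ⟨x, hx⟩ := (I.exact_succ n z.1).1 ((I.mem_Z n _).1 z.2)
  exact ⟨x, Subtype.ext hx⟩

/-- `X → E 0 → Z 0` -/
theorem InjRes.ses_zero (I : InjRes 𝕜 X) : SES I.aug (I.dZ 0) where
  inj := I.aug_injective
  ker := fun b => by
    rw [← I.exact_zero, ← I.coe_dZ]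
    exact (Submodule.coe_eq_zero).symm
  surj := I.dZ_surj 0

/-- `Z n → E (n + 1) → Z (n + 1)` -/
theorem InjRes.ses_succ (I : InjRes 𝕜 X) (n : ℕ) : SES (I.Z n).subtypeL (I.dZ (n + 1)) where
  inj := Subtype.val_injective
  ker := fun b => by
    have h1 : I.dZ (n + 1) b = 0 ↔ I.d (n + 1) b = 0 := by
      rw [← I.coe_dZ]
      exact (Submodule.coe_eq_zero).symm
    rw [h1, ← I.mem_Z]
    exact ⟨fun h => ⟨⟨b, h⟩, rfl⟩, fun ⟨a, ha⟩ => ha ▸ a.2⟩
  surj := I.dZ_surj (n + 1)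

theorem InjRes.idLE_of_Z (I : InjRes 𝕜 X) : ∀ (n k : ℕ), IdLE 𝕜 n (I.Z k) →
    IdLE 𝕜 (n + k + 1) X := by
  intro n k
  induction k generalizing n with
  | zero =>
    intro h
    exact ⟨I.E 0, I.Z 0, inferInstance, inferInstance, inferInstance, inferInstance, inferInstance,
      inferInstance, I.aug, I.dZ 0, I.inj 0, I.ses_zero, h⟩
  | succ k ih =>
    intro h
    have h1 : IdLE 𝕜 (n + 1) (I.Z k) :=
      ⟨I.E (k + 1), I.Z (k + 1), inferInstance, inferInstance, inferInstance, inferInstance,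
        inferInstance, inferInstance, (I.Z k).subtypeL, I.dZ (k + 1), I.inj _, I.ses_succ k, h⟩
    have h2 := ih (n + 1) h1
    rwa [show n + 1 + k + 1 = n + (k + 1) + 1 by omega] at h2

/-- If `0 → A → E → Q → 0` splits and `E` is injective then `A` is injective. -/
theorem inj_of_split (hIDB : S_IDB) {A E Q : Type} [NormedAddCommGroup A] [NormedSpace 𝕜 A]
    [CompleteSpace A] [NormedAddCommGroup E] [NormedSpace 𝕜 E] [CompleteSpace E]
    [NormedAddCommGroup Q] [NormedSpace 𝕜 Q] (i : A →L[𝕜] E) (q : E →L[𝕜] Q) (h : SES i q)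
    (F : Q →L[𝕜] E) (hF : ∀ z, q (F z) = z) (hE : Inj 𝕜 E) : Inj 𝕜 A := by
  have hrange : ∀ y : E, y ∈ LinearMap.range (i : A →ₗ[𝕜] E) ↔ q y = 0 := by
    intro y
    rw [h.ker]
    rfl
  have hcl : IsClosed (Set.range i) := by
    have h1 : Set.range i = {y | q y = 0} := by
      ext y
      exact (h.ker y).symm
    rw [h1]
    exact isClosed_eq q.continuous continuous_const
  let e := i.equivRange h.inj hcl
  let P : E →L[𝕜] E := ContinuousLinearMap.id 𝕜 E - F.comp q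
  have hP : ∀ y, P y ∈ LinearMap.range (i : A →ₗ[𝕜] E) := by
    intro y
    rw [hrange]
    show q (y - F (q y)) = 0
    rw [map_sub, hF, sub_self]
  refine (hIDB 𝕜 E A).1 ((e.symm : _ →L[𝕜] A).comp (P.codRestrict _ hP)) i (fun y => ?_) hE
  apply e.injective
  show e (e.symm (P.codRestrict _ hP (i y))) = e y
  rw [e.apply_symm_apply]
  apply Subtype.ext
  show i y - F (q (i y)) = i y
  rw [(h.ker (i y)).2 ⟨y, rfl⟩, map_zero, sub_zero]

/-- If `Ext^(n+1)(Y, X) = 0` for all `Y` then `id(X) ≤ n`. -/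
theorem InjRes.exists_ext [CompleteSpace X] (hIDB : S_IDB) (I : InjRes 𝕜 X) (n : ℕ)
    (hn : ¬ IdLE 𝕜 n X) :
    ∃ (Y : Type) (_ : NormedAddCommGroup Y) (_ : NormedSpace 𝕜 Y) (_ : CompleteSpace Y),
      ¬ I.ExtSuccVanishes Y n := by
  refine ⟨I.Z n, inferInstance, inferInstance, inferInstance, fun h => hn ?_⟩
  obtain ⟨F, hF⟩ := h (I.Z n).subtypeL (fun y => (I.mem_Z n _).1 y.2)
  have hF' : ∀ z, I.dZ n (F z) = z := fun z => Subtype.ext (hF z)
  cases n with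
  | zero => exact inj_of_split hIDB I.aug (I.dZ 0) I.ses_zero F hF' (I.inj 0)
  | succ n =>
    have h1 : Inj 𝕜 (I.Z n) :=
      inj_of_split hIDB (I.Z n).subtypeL (I.dZ (n + 1)) (I.ses_succ n) F hF' (I.inj (n + 1))
    have h2 := I.idLE_of_Z 0 n h1
    rwa [Nat.zero_add] at h2

end

/-! ### existence of injective resolutions -/

/-- a Banach space -/
structure Ban (𝕜 : Type) [RCLike 𝕜] where
  carrier : Type
  [grp : NormedAddCommGroup carrier]
  [spc : NormedSpace 𝕜 carrier]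
  [cpl : CompleteSpace carrier]

attribute [instance] Ban.grp Ban.spc Ban.cpl

/-- one step of a resolution -/
structure Step (𝕜 : Type) [RCLike 𝕜] (X : Ban 𝕜) where
  E : Ban 𝕜
  Q : Ban 𝕜
  i : X.carrier →L[𝕜] E.carrier
  q : E.carrier →L[𝕜] Q.carrier
  inj : Inj 𝕜 E.carrier
  ses : SES i q

theorem exists_step (h : S_ENOUGH) (𝕜 : Type) [RCLike 𝕜] (X : Ban 𝕜) : Nonempty (Step 𝕜 X) := by
  obtain ⟨E, Q, _, _, _, _, _, _, i, q, hE, hs⟩ := h 𝕜 X.carrier
  exact ⟨⟨⟨E⟩, ⟨Q⟩, i, q, hE, hs⟩⟩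

/-- Every Banach space has an injective resolution. -/
theorem exists_injRes (h : S_ENOUGH) (𝕜 : Type) [RCLike 𝕜] (X : Type) [NormedAddCommGroup X]
    [NormedSpace 𝕜 X] [CompleteSpace X] : Nonempty (InjRes 𝕜 X) := by
  let st : ∀ Y : Ban 𝕜, Step 𝕜 Y := fun Y => (exists_step h 𝕜 Y).some
  let Y : ℕ → Ban 𝕜 := fun n => Nat.rec ⟨X⟩ (fun _ Z => (st Z).Q) n
  exact ⟨{
    E := fun n => (st (Y n)).E.carrier
    inj := fun n => (st (Y n)).inj
    aug := (st (Y 0)).i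
    d := fun n => (st (Y (n + 1))).i.comp (st (Y n)).q
    aug_injective := (st (Y 0)).ses.inj
    exact_zero := fun y => by
      show (st (Y 1)).i ((st (Y 0)).q y) = 0 ↔ _
      exact (map_eq_zero_iff _ (st (Y 1)).ses.inj).trans ((st (Y 0)).ses.ker y)
    exact_succ := fun n y => by
      show (st (Y (n + 2))).i ((st (Y (n + 1))).q y) = 0 ↔ ∃ x, (st (Y (n + 1))).i ((st (Y n)).q x) = y
      rw [map_eq_zero_iff _ (st (Y (n + 2))).ses.inj, (st (Y (n + 1))).ses.ker]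
      constructor
      · rintro ⟨a, ha⟩
        obtain ⟨x, hx⟩ := (st (Y n)).ses.surj a
        exact ⟨x, by rw [hx, ha]⟩
      · rintro ⟨x, hx⟩
        exact ⟨_, hx⟩ }⟩

end Q96.ID
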