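import Pool.Agent.Q96.ID.Stm

namespace Q96.ID

open Cardinal Set Filter Topology

theorem same_factor {𝕜 : Type} [RCLike 𝕜] {X C D : Type} [NormedAddCommGroup X]
    [NormedSpace 𝕜 X] [CompleteSpace X] [NormedAddCommGroup C] [NormedSpace 𝕜 C] [CompleteSpace C]
    [NormedAddCommGroup D] [NormedSpace 𝕜 D] (p : X →L[𝕜] C) (r : X →L[𝕜] D)
    (hp : Function.Surjective p) (h : ∀ x, p x = 0 → r x = 0) :
    ∃ T : C →L[𝕜] D, ∀ x, T (p x) = r x := by
  have key : ∀ x y, p x = p y → r x = r y := by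
    intro x y hxy
    have h1 := h (x - y) (by rw [map_sub, hxy, sub_self])
    rwa [map_sub, sub_eq_zero] at h1
  have hs : ∀ c, p (Function.surjInv hp c) = c := Function.surjInv_eq hp
  let T : C →ₗ[𝕜] D :=
    { toFun := fun c => r (Function.surjInv hp c)
      map_add' := by
        intro a b
        rw [← map_add]
        exact key _ _ (by rw [map_add, hs, hs, hs])
      map_smul' := by
        intro a b
        rw [RingHom.id_apply, ← map_smul]
        exact key _ _ (by rw [map_smul, hs, hs]) }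
  have hT : ∀ x, T (p x) = r x := fun x => key _ _ (hs _)
  have hcont : Continuous T := by
    have hq : IsQuotientMap p := (p.isOpenMap hp).isQuotientMap p.continuous hp
    rw [hq.continuous_iff]
    have : T ∘ p = r := funext hT
    rw [this]
    exact r.continuous
  exact ⟨⟨T, hcont⟩, hT⟩

theorem t_SAME : S_SAME := by
  intro 𝕜 _ X C D _ _ _ _ _ _ _ _ _
  refine ⟨fun p r hp h => same_factor p r hp h, fun p r hp hr h => ?_, fun i q h => ?_⟩
  · obtain ⟨T, hT⟩ := same_factor p r hp fun x hx => (h x).1 hx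
    obtain ⟨T', hT'⟩ := same_factor r p hr fun x hx => (h x).2 hx
    refine ⟨ContinuousLinearEquiv.equivOfInverse T T' ?_ ?_, hT⟩
    · intro c
      obtain ⟨x, rfl⟩ := hp c
      rw [hT, hT']
    · intro d
      obtain ⟨x, rfl⟩ := hr d
      rw [hT', hT]
  · have hcl : IsClosed (Set.range i) := by
      have h1 : Set.range i = {y | q y = 0} := by
        ext y
        exact (h.ker y).symm
      rw [h1]
      exact isClosed_eq q.continuous continuous_const
    let e := i.equivRange h.inj hcl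
    refine ⟨‖e.symm.toContinuousLinearMap‖, fun x => ?_⟩
    have h2 := e.symm.toContinuousLinearMap.le_opNorm (e x)
    have h3 : e.symm.toContinuousLinearMap (e x) = x := e.symm_apply_apply x
    rw [h3] at h2
    exact h2

theorem t_LINF : S_LINF := by
  intro 𝕜 _ Γ X Y _ _ _ _ _ _ i c hi f
  have hi' : ∀ x, ‖x‖ ≤ |c| * ‖i x‖ := fun x =>
    (hi x).trans (mul_le_mul_of_nonneg_right (le_abs_self c) (norm_nonneg _))
  have hinj : Function.Injective i := by
    rw [injective_iff_map_eq_zero]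
    intro x hx
    have := hi' x
    rw [hx, norm_zero, mul_zero] at this
    exact norm_le_zero_iff.1 this
  let e : X ≃ₗ[𝕜] LinearMap.range (i : X →ₗ[𝕜] Y) := LinearEquiv.ofInjective _ hinj
  have he : ∀ x, ((e x : LinearMap.range (i : X →ₗ[𝕜] Y)) : Y) = i x := fun x => rfl
  have h1 : ∀ γ : Γ, ∃ g : Y →L[𝕜] 𝕜, (∀ x, g (i x) = f x γ) ∧ ‖g‖ ≤ ‖f‖ * |c| := by
    intro γ
    let φ : LinearMap.range (i : X →ₗ[𝕜] Y) →ₗ[𝕜] 𝕜 :=
      { toFun := fun y => f (e.symm y) γ
        map_add' := by
          intro a b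
          rw [map_add, map_add]
          rfl
        map_smul' := by
          intro a b
          rw [map_smul, map_smul]
          rfl }
    have hφ : ∀ y, ‖φ y‖ ≤ ‖f‖ * |c| * ‖y‖ := by
      intro y
      have h2 : ‖φ y‖ ≤ ‖f (e.symm y)‖ := lp.norm_apply_le_norm ENNReal.top_ne_zero _ γ
      have h3 := f.le_opNorm (e.symm y)
      have h4 := hi' (e.symm y)
      have h5 : i (e.symm y) = (y : Y) := by rw [← he, e.apply_symm_apply]
      rw [h5] at h4
      calc ‖φ y‖ ≤ ‖f‖ * ‖e.symm y‖ := h2.trans h3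
        _ ≤ ‖f‖ * (|c| * ‖(y : Y)‖) := mul_le_mul_of_nonneg_left h4 (norm_nonneg _)
        _ = _ := by rw [mul_assoc]; rfl
    obtain ⟨g, hg, hgn⟩ := exists_extension_norm_eq _ (φ.mkContinuous _ hφ)
    refine ⟨g, fun x => ?_, ?_⟩
    · have h6 := hg (e x)
      rw [he] at h6
      rw [h6]
      show f (e.symm (e x)) γ = _
      rw [e.symm_apply_apply]
    · rw [hgn]
      exact LinearMap.mkContinuous_norm_le _ (by positivity) _
  choose g hg hgn using h1
  have hb : ∀ y γ, ‖g γ y‖ ≤ ‖f‖ * |c| * ‖y‖ := fun y γ =>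
    ((g γ).le_opNorm y).trans (mul_le_mul_of_nonneg_right (hgn γ) (norm_nonneg _))
  have hmem : ∀ y, Memℓp (fun γ => g γ y) ⊤ := fun y =>
    memℓp_infty ⟨‖f‖ * |c| * ‖y‖, by rintro _ ⟨γ, rfl⟩; exact hb y γ⟩
  let G : Y →ₗ[𝕜] Linf 𝕜 Γ :=
    { toFun := fun y => ⟨fun γ => g γ y, hmem y⟩
      map_add' := by
        intro a b
        apply lp.ext
        funext γ
        exact map_add (g γ) a b
      map_smul' := by
        intro a b
        apply lp.ext
        funext γ
        exact map_smul (g γ) a b }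
  have hG : ∀ y, ‖G y‖ ≤ ‖f‖ * |c| * ‖y‖ := fun y =>
    lp.norm_le_of_forall_le (by positivity) (fun γ => hb y γ)
  refine ⟨G.mkContinuous _ hG, fun x => ?_⟩
  apply lp.ext
  funext γ
  exact hg γ x

end Q96.ID
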