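import Pool.Agent.Q96.ID.Main
import Pool.Agent.Q96.ID.Ext
import Pool.Agent.Q96.ID.Same
import Pool.Agent.Q182.ID.ENOUGH
import Pool.Agent.Q65.ID.QUOT
import Pool.Agent.Q162.ID.SCH
import Pool.Agent.Q129.ID.IDB
import Pool.Agent.Q162.ID.RET
import Pool.Agent.Q181.ID.UNIQ
import Pool.Agent.Q214.ID.AKG
import Pool.Agent.Q214.ID.ULIM
import Pool.Agent.Q184.ID.AMALG
import Pool.Agent.Q254.ID.ULTRA
import Pool.Agent.Q130.ID.PMAP
import Pool.Agent.Q203.ID.COMPL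
import Pool.Agent.Q277.ID.TREE
import Pool.Agent.Q277.ID.CZ
import Pool.Agent.Q18.ID.ROS
import Pool.Agent.Q285.ID.NIQ
import Pool.Agent.Q121.ID.CARD
import Pool.Agent.Q166.ID.ADD
import Pool.Agent.Q166.ID.COMB
import Pool.Agent.Q166.ID.EMAP

/-! Project ID: all lemma jobs put together. -/

open Cardinal

namespace Q96.ID

theorem linf : S_LINF := t_LINF
theorem quo : S_QUOT := Q65.ID.QUOT.t_QUOT
theorem enough : S_ENOUGH := Q182.ID.ENOUGH.t_ENOUGH linf quo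
theorem same : S_SAME := t_SAME
theorem sch : S_SCH := Q162.ID.SCH.t_SCH same
theorem idb : S_IDB := Q129.ID.IDB.t_IDB
theorem ret : S_RET := Q162.ID.RET.t_RET enough sch idb
theorem uniq : S_UNIQ := Q181.ID.UNIQ.t_UNIQ sch idb ret
theorem akg : S_AKG := Q214.ID.AKG.t_AKG
theorem ulim : S_ULIM := Q214.ID.ULIM.t_ULIM
theorem amalg : S_AMALG := Q184.ID.AMALG.t_AMALG
theorem addC : S_ADD := Q166.ID.ADD.t_ADD
theorem comb : S_COMB := Q166.ID.COMB.t_COMB amalg addC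
theorem ultra : S_ULTRA := Q254.ID.ULTRA.t_ULTRA
theorem emap : S_EMAP := Q166.ID.EMAP.t_EMAP akg
theorem pmap : S_PMAP := Q130.ID.PMAP.t_PMAP ulim
theorem compl : S_COMPL := Q203.ID.COMPL.t_COMPL comb ultra emap pmap same akg
theorem tree : S_TREE := Q277.ID.TREE.t_TREE
theorem cz : S_CZ := Q277.ID.CZ.t_CZ
theorem ros : S_ROS := Q18.ID.ROS.t_ROS
theorem niq : S_NIQ := Q285.ID.NIQ.t_NIQ cz ros ulim ultra same
theorem card : S_CARD := Q121.ID.CARD.t_CARD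

theorem hyps : Hyps := ⟨linf, quo, ret, uniq, akg, compl, tree, niq, card⟩

theorem all_chain (𝕜 : Type) [RCLike 𝕜] : ∀ (n m : ℕ), (∀ j < m + n, CH j) →
    ∀ (κ : Cardinal.{0}) (hκ : ℵ₀ ≤ κ), κ = ℵ_ (m : Ordinal) → ∀ Γ : Type, #Γ = κ →
      ¬ IdLE 𝕜 (n + 1) (A 𝕜 κ hκ Γ) := chain hyps 𝕜

theorem isClosed_A (𝕜 : Type) [RCLike 𝕜] (κ : Cardinal.{0}) (hκ : ℵ₀ ≤ κ) (Γ : Type) :
    IsClosed (A 𝕜 κ hκ Γ : Set (Linf 𝕜 Γ)) := (akg 𝕜 κ hκ Γ Γ).1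

theorem idLE_succ (𝕜 : Type) [RCLike 𝕜] (X : Type) [NormedAddCommGroup X] [NormedSpace 𝕜 X]
    [CompleteSpace X] (n : ℕ) (h : IdLE 𝕜 n X) : IdLE 𝕜 (n + 1) X := (idb 𝕜 X X).2.2.2 n h

/-- `id ≤ n` implies `id ≤ m` for `n ≤ m`. -/
theorem idLE_mono (𝕜 : Type) [RCLike 𝕜] (X : Type) [NormedAddCommGroup X] [NormedSpace 𝕜 X]
    [CompleteSpace X] {n m : ℕ} (hnm : n ≤ m) (h : IdLE 𝕜 n X) : IdLE 𝕜 m X := by
  induction hnm with
  | refl => exact h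
  | step _ ih => exact idLE_succ 𝕜 X _ ih

end Q96.ID
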