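import Pool.Agent.Q96.ID.Stm

/-! Project ID: the chain of inequalities. -/

open Cardinal Set Filter Topology

namespace Q96.ID

/-- `2 ^ ℵ_j = ℵ_(j+1)` -/
def CH (j : ℕ) : Prop := (2 : Cardinal.{0}) ^ ℵ_ (j : Ordinal) = ℵ_ ((j + 1 : ℕ) : Ordinal)

theorem succ_aleph_nat (m : ℕ) :
    Order.succ (ℵ_ (m : Ordinal.{0})) = ℵ_ ((m + 1 : ℕ) : Ordinal.{0}) := by
  rw [Nat.cast_add, Nat.cast_one, succ_aleph]

theorem isRegular_aleph_nat (m : ℕ) : (ℵ_ (m : Ordinal.{0})).IsRegular := by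
  cases m with
  | zero => rw [Nat.cast_zero, aleph_zero]; exact isRegular_aleph0
  | succ m => rw [Nat.cast_add, Nat.cast_one]; exact isRegular_aleph_add_one _

/-- All lemma jobs together. -/
structure Hyps : Prop where
  LINF : S_LINF
  QUOT : S_QUOT
  RET : S_RET
  UNIQ : S_UNIQ
  AKG : S_AKG
  COMPL : S_COMPL
  TREE : S_TREE
  NIQ : S_NIQ
  CARD : S_CARD

/-- `ℓ_∞(Γ) / A_κ(Γ)` -/
theorem quot (H : Hyps) (𝕜 : Type) [RCLike 𝕜] (κ : Cardinal.{0}) (hκ : ℵ₀ ≤ κ) (Γ : Type) :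
    ∃ (Q : Type) (_ : NormedAddCommGroup Q) (_ : NormedSpace 𝕜 Q) (_ : CompleteSpace Q)
      (q : Linf 𝕜 Γ →L[𝕜] Q), SES (A 𝕜 κ hκ Γ).subtypeL q ∧
      ∀ n, IdLE 𝕜 (n + 1) (A 𝕜 κ hκ Γ) → IdLE 𝕜 n Q := by
  have hc := (H.AKG 𝕜 κ hκ Γ Γ).1
  obtain ⟨Q, _, _, _, q, hq⟩ := (H.QUOT 𝕜 (Linf 𝕜 Γ)).1 (A 𝕜 κ hκ Γ) hc
  have : CompleteSpace (A 𝕜 κ hκ Γ) := hc.completeSpace_coe
  exact ⟨Q, inferInstance, inferInstance, inferInstance, q, hq,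
    fun n hn => H.UNIQ 𝕜 n _ _ _ _ q (H.LINF 𝕜 Γ) hq hn⟩

theorem chain (H : Hyps) (𝕜 : Type) [RCLike 𝕜] : ∀ (n m : ℕ), (∀ j < m + n, CH j) →
    ∀ (κ : Cardinal.{0}) (hκ : ℵ₀ ≤ κ), κ = ℵ_ (m : Ordinal) → ∀ Γ : Type, #Γ = κ →
      ¬ IdLE 𝕜 (n + 1) (A 𝕜 κ hκ Γ) := by
  intro n
  induction n with
  | zero =>
    intro m hm κ hκ hκm Γ hΓ hid
    obtain ⟨Q, _, _, _, q, hq, hQ⟩ := quot H 𝕜 κ hκ Γ
    have hpow : ∀ μ < κ, (2 : Cardinal.{0}) ^ μ ≤ κ := by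
      intro μ hμ
      rw [hκm] at hμ ⊢
      exact H.CARD.2 m (fun j hj => hm j (by omega)) μ hμ
    obtain ⟨T, C, hT, hC, hC2⟩ := H.TREE κ hκ hpow Γ hΓ
    have hTinf : Infinite T := by
      rw [infinite_iff, hT]
      exact hκ.trans (cantor κ).le
    have hΓinf : Infinite Γ := by
      rw [infinite_iff, hΓ]
      exact hκ
    refine H.NIQ 𝕜 κ hκ Γ T C hTinf (fun t => (hC t).ge) hC2 ?_ Q q hq (hQ 0 hid)
    refine (H.CARD.1 𝕜 Γ hΓinf).trans_lt ?_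
    rw [hΓ, ← hT]
    exact cantor _
  | succ n ih =>
    intro m hm κ hκ hκm Γ hΓ hid
    have hc := (H.AKG 𝕜 κ hκ Γ Γ).1
    have : CompleteSpace (A 𝕜 κ hκ Γ) := hc.completeSpace_coe
    have hreg : κ.IsRegular := hκm ▸ isRegular_aleph_nat m
    have hI : #κ.ord.ToType = κ := mk_ord_toType κ
    have hI2 : ∀ i : κ.ord.ToType, #(Iio i) < κ := fun i => by
      have := mk_Iio_lt i (by simp)
      rwa [hI] at this
    have hΓI : #Γ = #(κ.ord.ToType × κ.ord.ToType) := by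
      rw [← mul_def, hI, mul_eq_self hκ, hΓ]
    obtain ⟨e⟩ := Cardinal.eq.1 hΓI
    obtain ⟨e'⟩ := (H.AKG 𝕜 κ hκ Γ (κ.ord.ToType × κ.ord.ToType)).2.1 ⟨e⟩
    have hc2 := (H.AKG 𝕜 κ hκ (κ.ord.ToType × κ.ord.ToType) Γ).1
    have : CompleteSpace (A 𝕜 κ hκ (κ.ord.ToType × κ.ord.ToType)) := hc2.completeSpace_coe
    have hid2 := H.RET 𝕜 _ _ _ (e' : A 𝕜 κ hκ Γ →L[𝕜] _) (e'.symm : _ →L[𝕜] A 𝕜 κ hκ Γ)
      (fun c => e'.apply_symm_apply c) hid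
    obtain ⟨Q, _, _, _, q, hq, hQ⟩ := quot H 𝕜 κ hκ (κ.ord.ToType × κ.ord.ToType)
    have hid3 := hQ _ hid2
    have hκ' : ℵ₀ ≤ Order.succ κ := hκ.trans (Order.le_succ κ)
    have hch : (2 : Cardinal.{0}) ^ κ = Order.succ κ := by
      rw [hκm, succ_aleph_nat]
      exact hm m (by omega)
    obtain ⟨J, E, r, hJ, hr⟩ := H.COMPL 𝕜 κ hκ hκ' hreg hch κ.ord.ToType hI hI2 Q q hq
    have hc3 := (H.AKG 𝕜 (Order.succ κ) hκ' J J).1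
    have : CompleteSpace (A 𝕜 (Order.succ κ) hκ' J) := hc3.completeSpace_coe
    have hid4 := H.RET 𝕜 _ _ _ r E hr hid3
    refine ih (m + 1) (fun j hj => hm j (by omega)) (Order.succ κ) hκ' ?_ J hJ hid4
    rw [hκm, succ_aleph_nat]

end Q96.ID
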