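import Mathlib

/-!
# Project ID (helper96): the injective dimension of `c_0` (problem MP_667da3_an)

Goal: if `2 ^ ℵ_j = ℵ_(j+1)` for all `j < n` then `c_0` has no injective resolution of length
`n + 1`; in particular GCH implies `id(c_0) = ∞`.

`κ` is an infinite regular cardinal, `A_κ(Γ)` the space of all `f ∈ ℓ_∞(Γ)` such that
`{|f| > ε}` has fewer than `κ` elements for all `ε > 0` (so `A_ω(ℕ) = c_0`).  Plan:
(1) `id(A_κ(Γ)) = id(ℓ_∞(Γ) / A_κ(Γ)) + 1` (Schanuel);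
(2) if `2^κ = κ⁺` then `A_(κ⁺)(κ⁺)` is complemented in `ℓ_∞(κ) / A_κ(κ)`;
(3) `ℓ_∞(κ) / A_κ(κ)` is not injective.

Each `S_...` is one lemma job; its docstring contains the complete proof.  All jobs are
independent of each other: hypotheses `(h : S_xx)` may be used where the docstring says so.
-/

open Cardinal Set Filter Topology

namespace Q96.ID

section ban

variable (𝕜 : Type) [RCLike 𝕜]

/-- `ℓ_∞(Γ)`. -/
abbrev Linf (Γ : Type) : Type := lp (fun _ : Γ => 𝕜) ⊤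

/-- `E` is an injective Banach space: operators into `E` extend from (isomorphically) embedded
Banach spaces. -/
def Inj (E : Type) [NormedAddCommGroup E] [NormedSpace 𝕜 E] : Prop :=
  ∀ (X Y : Type) [NormedAddCommGroup X] [NormedSpace 𝕜 X] [CompleteSpace X]
    [NormedAddCommGroup Y] [NormedSpace 𝕜 Y] [CompleteSpace Y]
    (i : X →L[𝕜] Y) (c : ℝ), (∀ x, ‖x‖ ≤ c * ‖i x‖) → ∀ f : X →L[𝕜] E,
    ∃ g : Y →L[𝕜] E, ∀ x, g (i x) = f x

variable {𝕜} in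
/-- `0 → A → B → C → 0` is exact. -/
structure SES {A B C : Type} [NormedAddCommGroup A] [NormedSpace 𝕜 A]
    [NormedAddCommGroup B] [NormedSpace 𝕜 B] [NormedAddCommGroup C] [NormedSpace 𝕜 C]
    (i : A →L[𝕜] B) (q : B →L[𝕜] C) : Prop where
  inj : Function.Injective i
  ker : ∀ b, q b = 0 ↔ ∃ a, i a = b
  surj : Function.Surjective q

/-- `id(X) ≤ n`: there is an injective resolution `0 → X → E_0 → ⋯ → E_n → 0`. -/
def IdLE : ℕ → ∀ (X : Type) [NormedAddCommGroup X] [NormedSpace 𝕜 X], Prop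
  | 0, X, _, _ => Inj 𝕜 X
  | n + 1, X, _, _ => ∃ (E Q : Type) (_ : NormedAddCommGroup E) (_ : NormedSpace 𝕜 E)
      (_ : CompleteSpace E) (_ : NormedAddCommGroup Q) (_ : NormedSpace 𝕜 Q)
      (_ : CompleteSpace Q) (i : X →L[𝕜] E) (q : E →L[𝕜] Q),
      Inj 𝕜 E ∧ SES i q ∧ IdLE n Q

/-- `A_κ(Γ)`. -/
def A (κ : Cardinal.{0}) (hκ : ℵ₀ ≤ κ) (Γ : Type) : Submodule 𝕜 (Linf 𝕜 Γ) where
  carrier := {f | ∀ ε : ℝ, 0 < ε → #{γ // ε < ‖f γ‖} < κ}
  add_mem' := by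
    intro f g hf hg ε hε
    have h1 := add_lt_of_lt hκ (hf (ε / 2) (by positivity)) (hg (ε / 2) (by positivity))
    refine lt_of_le_of_lt ?_ h1
    have h2 : {γ | ε < ‖(f + g : Linf 𝕜 Γ) γ‖} ⊆ {γ | ε / 2 < ‖f γ‖} ∪ {γ | ε / 2 < ‖g γ‖} := by
      intro γ hγ
      by_contra hcon
      rw [mem_union, not_or] at hcon
      simp only [mem_ofPred_eq, not_lt] at hcon hγ
      have h3 : ‖(f + g : Linf 𝕜 Γ) γ‖ ≤ ‖f γ‖ + ‖g γ‖ := norm_add_le _ _
      linarith [hcon.1, hcon.2]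
    exact (mk_le_mk_of_subset h2).trans (mk_union_le _ _)
  zero_mem' := by
    intro ε hε
    have h2 : #{γ : Γ // ε < ‖(0 : Linf 𝕜 Γ) γ‖} = 0 := by
      rw [mk_eq_zero_iff]
      refine ⟨fun γ => ?_⟩
      have h3 := γ.2
      have h4 : ‖(0 : Linf 𝕜 Γ) γ.1‖ = 0 := norm_zero
      rw [h4] at h3
      linarith
    rw [h2]
    exact lt_of_lt_of_le aleph0_pos hκ
  smul_mem' := by
    intro c f hf ε hε
    refine lt_of_le_of_lt ?_ (hf (ε / (‖c‖ + 1)) (by positivity))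
    refine mk_le_mk_of_subset ?_
    intro γ hγ
    have h3 : ‖(c • f : Linf 𝕜 Γ) γ‖ = ‖c‖ * ‖f γ‖ := by
      rw [lp.coeFn_smul, Pi.smul_apply, norm_smul]
    have h4 : ε < ‖c‖ * ‖f γ‖ := h3 ▸ hγ
    show ε / (‖c‖ + 1) < ‖f γ‖
    rw [div_lt_iff₀ (by positivity)]
    nlinarith [norm_nonneg (f γ), norm_nonneg c]

end ban

/-! ## Part 1: injective spaces and resolutions -/

/-- JOB LINF.  `ℓ_∞(Γ)` is injective.
Proof.  Let `i : X → Y` with `‖x‖ ≤ c ‖i x‖` (we may take `c ≥ 0`) and `f : X → ℓ_∞(Γ)`.  `i` is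
injective; for each `γ` the map `i x ↦ (f x) γ` is a well-defined linear functional on the
subspace `range i` of `Y`, bounded by `‖f‖ c` (`|(f x) γ| ≤ ‖f x‖ ≤ ‖f‖ ‖x‖ ≤ ‖f‖ c ‖i x‖`).  By
Hahn-Banach (`exists_extension_norm_eq`) it extends to `g_γ : Y → 𝕜` with `‖g_γ‖ ≤ ‖f‖ c`.  Put
`g y = (g_γ y)_γ`; it is bounded by `‖f‖ c ‖y‖` (`memℓp_infty`, `lp.norm_le_of_forall_le`,
`LinearMap.mkContinuous`). -/
def S_LINF : Prop := ∀ (𝕜 : Type) [RCLike 𝕜] (Γ : Type), Inj 𝕜 (Linf 𝕜 Γ)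

/-- JOB QUOT.  Quotients of Banach spaces.  Proof.  `Q = X ⧸ S` with Mathlib's quotient norm
(`Submodule.Quotient.normedAddCommGroup` wants `IsClosed S` as an instance, use `haveI`);
`q = S.mkQL` or build it from `Submodule.Quotient.norm_mk_le`.  The second part: `i` has closed
range (`AntilipschitzWith.isClosed_range`), apply the first part to `S = range i`. -/
def S_QUOT : Prop := ∀ (𝕜 : Type) [RCLike 𝕜] (X : Type) [NormedAddCommGroup X] [NormedSpace 𝕜 X]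
  [CompleteSpace X],
  (∀ S : Submodule 𝕜 X, IsClosed (S : Set X) → ∃ (Q : Type) (_ : NormedAddCommGroup Q)
    (_ : NormedSpace 𝕜 Q) (_ : CompleteSpace Q) (q : X →L[𝕜] Q), SES S.subtypeL q) ∧
  (∀ (Z : Type) [NormedAddCommGroup Z] [NormedSpace 𝕜 Z] [CompleteSpace Z] (i : Z →L[𝕜] X)
    (c : ℝ), (∀ z, ‖z‖ ≤ c * ‖i z‖) → ∃ (Q : Type) (_ : NormedAddCommGroup Q)
    (_ : NormedSpace 𝕜 Q) (_ : CompleteSpace Q) (q : X →L[𝕜] Q), SES i q)

/-- JOB ENOUGH (uses `S_LINF`, `S_QUOT` as hypotheses).  Enough injectives.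
Proof.  `Γ` = the closed unit ball of the dual of `X`, `i x = (φ ↦ φ x)`, an isometry by
Hahn-Banach (`exists_dual_vector'`); `Inj` by `S_LINF`, the quotient by `S_QUOT`. -/
def S_ENOUGH : Prop := ∀ (𝕜 : Type) [RCLike 𝕜] (X : Type) [NormedAddCommGroup X]
  [NormedSpace 𝕜 X] [CompleteSpace X],
  ∃ (E Q : Type) (_ : NormedAddCommGroup E) (_ : NormedSpace 𝕜 E) (_ : CompleteSpace E)
    (_ : NormedAddCommGroup Q) (_ : NormedSpace 𝕜 Q) (_ : CompleteSpace Q)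
    (i : X →L[𝕜] E) (q : E →L[𝕜] Q), Inj 𝕜 E ∧ SES i q

/-- JOB SAME.  Two surjective operators with the same kernel have isomorphic ranges, and a
bounded operator vanishing on the kernel of a surjective one factors through it; an injective
operator with closed range (here: the kernel of an operator) is an isomorphic embedding.
Proof.  (i) `T : C → D` linear with `T (p x) = r x` (well defined as `ker p ⊆ ker r`); `p` is open
(`ContinuousLinearMap.isOpenMap`, complete spaces), so a quotient map, so `T` is continuous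
(`IsQuotientMap.continuous_iff`).  (ii) Apply (i) in both directions.
(iii) `range i = ker q` is closed; use `ContinuousLinearMap.antilipschitz_of_injective_of_isClosed_range`
or the open mapping theorem for `X → ker q`. -/
def S_SAME : Prop := ∀ (𝕜 : Type) [RCLike 𝕜] (X C D : Type) [NormedAddCommGroup X]
  [NormedSpace 𝕜 X] [CompleteSpace X] [NormedAddCommGroup C] [NormedSpace 𝕜 C] [CompleteSpace C]
  [NormedAddCommGroup D] [NormedSpace 𝕜 D] [CompleteSpace D],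
  (∀ (p : X →L[𝕜] C) (r : X →L[𝕜] D), Function.Surjective p → (∀ x, p x = 0 → r x = 0) →
    ∃ T : C →L[𝕜] D, ∀ x, T (p x) = r x) ∧
  (∀ (p : X →L[𝕜] C) (r : X →L[𝕜] D), Function.Surjective p → Function.Surjective r →
    (∀ x, p x = 0 ↔ r x = 0) → ∃ T : C ≃L[𝕜] D, ∀ x, T (p x) = r x) ∧
  (∀ (i : C →L[𝕜] X) (q : X →L[𝕜] D), SES i q → ∃ c : ℝ, ∀ x, ‖x‖ ≤ c * ‖i x‖)

/-- JOB SCH (uses `S_SAME` as hypothesis).  Schanuel's lemma.
Proof.  By injectivity (and `S_SAME` (iii): `i, i'` are isomorphic embeddings) there are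
`a : E → E'` with `a (i x) = i' x` and `b : E' → E` with `b (i' x) = i x`.  The operators
`E × E' → Q' × E`, `(e,e') ↦ (q' e', e + b e')` and `E × E' → Q × E'`, `(e,e') ↦ (q e, e' + a e)`
are surjective and both have the kernel `{(−i x, i' x)}` (first: `q' e' = 0` gives `e' = i' x`,
`e = −b e' = −i x`; second: `e = i z`, `e' = −a e = −i' z`, `z = −x`).  Apply `S_SAME` (ii). -/
def S_SCH : Prop := ∀ (𝕜 : Type) [RCLike 𝕜] (X E Q E' Q' : Type)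
  [NormedAddCommGroup X] [NormedSpace 𝕜 X] [CompleteSpace X]
  [NormedAddCommGroup E] [NormedSpace 𝕜 E] [CompleteSpace E]
  [NormedAddCommGroup Q] [NormedSpace 𝕜 Q] [CompleteSpace Q]
  [NormedAddCommGroup E'] [NormedSpace 𝕜 E'] [CompleteSpace E']
  [NormedAddCommGroup Q'] [NormedSpace 𝕜 Q'] [CompleteSpace Q']
  (i : X →L[𝕜] E) (q : E →L[𝕜] Q) (i' : X →L[𝕜] E') (q' : E' →L[𝕜] Q'),
  Inj 𝕜 E → Inj 𝕜 E' → SES i q → SES i' q' → Nonempty ((Q × E') ≃L[𝕜] (Q' × E))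

/-- JOB IDB.  Basic properties of `Inj` and `IdLE`: retracts and products of injective spaces,
`id(Q × E) ≤ n` if `id(Q) ≤ n` and `E` is injective, and monotonicity.
Proof.  (i) compose; (ii) componentwise; (iii) induction on `n`: for `n + 1` take `Q → F → R` and
use `Q × E → F × E → R`, `(x, e) ↦ (i x, e)`, `(y, e) ↦ q y`, with `Inj (F × E)` by (ii).
(iv) induction on `n` (generalizing `X`): `n = 0`: `X → X → PUnit`. -/
def S_IDB : Prop := ∀ (𝕜 : Type) [RCLike 𝕜] (X Y : Type) [NormedAddCommGroup X]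
  [NormedSpace 𝕜 X] [CompleteSpace X] [NormedAddCommGroup Y] [NormedSpace 𝕜 Y] [CompleteSpace Y],
  (∀ (r : X →L[𝕜] Y) (s : Y →L[𝕜] X), (∀ y, r (s y) = y) → Inj 𝕜 X → Inj 𝕜 Y) ∧
  (Inj 𝕜 X → Inj 𝕜 Y → Inj 𝕜 (X × Y)) ∧
  (∀ n, IdLE 𝕜 n X → Inj 𝕜 Y → IdLE 𝕜 n (X × Y)) ∧
  (∀ n, IdLE 𝕜 n X → IdLE 𝕜 (n + 1) X)

/-- JOB RET (uses `S_ENOUGH`, `S_SCH`, `S_IDB` as hypotheses).  `id` of a retract.
Proof.  Induction on `n` (for all spaces).  `n = 0`: `S_IDB` (i).  `n + 1`: let `B → E → Q` be exact,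
`E` injective, `id(Q) ≤ n`.  Let `D = ker r` (a Banach space), so `B ≅ C × D` by
`b ↦ (r b, b − s (r b))`.  Choose exact sequences `C → E_C → Q_C`, `D → E_D → Q_D` with `E_C, E_D`
injective (`S_ENOUGH`).  Then `B → E_C × E_D → Q_C × Q_D` is exact and `E_C × E_D` is injective
(`S_IDB` (ii)); by `S_SCH` `Q × (E_C × E_D) ≅ (Q_C × Q_D) × E`.  So `Q_C` is a retract of
`Q × (E_C × E_D)`, which has `id ≤ n` by `S_IDB` (iii).  By induction `id(Q_C) ≤ n`, so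
`id(C) ≤ n + 1`. -/
def S_RET : Prop := ∀ (𝕜 : Type) [RCLike 𝕜] (n : ℕ) (B C : Type) [NormedAddCommGroup B]
  [NormedSpace 𝕜 B] [CompleteSpace B] [NormedAddCommGroup C] [NormedSpace 𝕜 C] [CompleteSpace C]
  (r : B →L[𝕜] C) (s : C →L[𝕜] B), (∀ c, r (s c) = c) → IdLE 𝕜 n B → IdLE 𝕜 n C

/-- JOB UNIQ (uses `S_SCH`, `S_IDB`, `S_RET` as hypotheses).  Any injective space may be used in
the first step of a resolution.
Proof.  Let `X → E' → Q'` be exact with `E'` injective, `id(Q') ≤ n`.  By `S_SCH`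
`Q × E' ≅ Q' × E`, which has `id ≤ n` by `S_IDB` (iii); `Q` is a retract of it, apply `S_RET`. -/
def S_UNIQ : Prop := ∀ (𝕜 : Type) [RCLike 𝕜] (n : ℕ) (X E Q : Type)
  [NormedAddCommGroup X] [NormedSpace 𝕜 X] [CompleteSpace X]
  [NormedAddCommGroup E] [NormedSpace 𝕜 E] [CompleteSpace E]
  [NormedAddCommGroup Q] [NormedSpace 𝕜 Q] [CompleteSpace Q]
  (i : X →L[𝕜] E) (q : E →L[𝕜] Q), Inj 𝕜 E → SES i q → IdLE 𝕜 (n + 1) X → IdLE 𝕜 n Q

/-! ## Part 2: the spaces `A_κ(Γ)` -/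

/-- JOB AKG.  `A_κ(Γ)` is closed; a bijection of the index sets induces an isomorphism; and if
`κ` is regular and uncountable, the elements of `A_κ(Γ)` have support smaller than `κ`.
Proof.  (i) If `‖f − g‖ < ε/2`, `g ∈ A_κ`: `{|f| > ε} ⊆ {|g| > ε/2}`.
(ii) `f ↦ f ∘ e`.  (iii) the support is the countable union of the sets `{|f| > 1/(n+1)}`
(`Cardinal.IsRegular`: a union of fewer than `κ` sets smaller than `κ` is smaller than `κ`, see
`Mathlib/SetTheory/Cardinal/Regular.lean`, e.g. `card_iUnion_lt_iff_forall_of_isRegular`). -/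
def S_AKG : Prop := ∀ (𝕜 : Type) [RCLike 𝕜] (κ : Cardinal.{0}) (hκ : ℵ₀ ≤ κ) (Γ Γ' : Type),
  IsClosed (A 𝕜 κ hκ Γ : Set (Linf 𝕜 Γ)) ∧
  (Nonempty (Γ ≃ Γ') → Nonempty (A 𝕜 κ hκ Γ ≃L[𝕜] A 𝕜 κ hκ Γ')) ∧
  (ℵ₀ < κ → κ.IsRegular → ∀ f ∈ A 𝕜 κ hκ Γ, #{γ // f γ ≠ 0} < κ)

/-- JOB ULIM.  The limit along an ultrafilter as an operator on `ℓ_∞(X)`.
Proof.  `f` maps `X` into the compact ball of radius `‖f‖` of `𝕜` (proper space), so
`Ultrafilter.map f q` converges (`IsCompact.ultrafilter_le_nhds`); the limit is unique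
(`tendsto_nhds_unique`), additive, homogeneous and bounded by `‖f‖` (`le_of_tendsto`). -/
def S_ULIM : Prop := ∀ (𝕜 : Type) [RCLike 𝕜] (X : Type) (q : Ultrafilter X),
  ∃ L : Linf 𝕜 X →L[𝕜] 𝕜, (∀ f : Linf 𝕜 X, Tendsto (fun x => f x) (q : Filter X) (𝓝 (L f))) ∧
    ∀ f, ‖L f‖ ≤ ‖f‖

/-! ## Part 3: combinatorics on `κ × κ` -/

/-- `D ⊆ κ × κ` has `κ` vertical sections of size `κ`. -/
def Big (κ : Cardinal.{0}) {I : Type} (D : Set (I × I)) : Prop :=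
  #{ξ : I // #{η : I // (ξ, η) ∈ D} = κ} = κ

/-- `w` is finite only on a set all of whose vertical sections are smaller than `κ`. -/
def Thin (κ : Cardinal.{0}) {I J : Type} (w : I × I → WithTop J) : Prop :=
  ∀ ξ : I, #{η : I // w (ξ, η) ≠ ⊤} < κ

/-- `w` truncated at `j` (values `> j` replaced by `⊤`) is `v`, up to fewer than `κ` points. -/
def Coh (κ : Cardinal.{0}) {I J : Type} [LinearOrder J] (j : J) (v w : I × I → WithTop J) :
    Prop :=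
  #{x : I × I // v x ≠ if w x ≤ (j : WithTop J) then w x else ⊤} < κ

/-- JOB AMALG.  Amalgamation of a coherent family indexed by the predecessors of `j`.
Proof.  If `j` has no predecessor take `U = ⊤`.  Otherwise there is a surjection
`e : I → Iio j` (`#(Iio j) ≤ κ = #I`).  For `x = (ξ, η)` let `H x` be the set of `i ∈ I`, `i < ξ`,
such that for all `a, b ≤ i` with `e a < e b`: `V (e a) x = trunc_(e a) (V (e b) x)`; an initial
segment.  Put `U x = ` the common value `≠ ⊤` of the `V (e i) x`, `i ∈ H x`, if there is one, and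
`⊤` otherwise (two values `≠ ⊤` agree: if `e a < e b`, `V (e a) x = trunc (V (e b) x) ≠ ⊤` then
`V (e b) x = V (e a) x`).  `U x ≤ e i < j` or `⊤`.  Thin: the section of `{U ≠ ⊤}` at `ξ` is
contained in the union over the fewer than `κ` elements `i < ξ` of the sections of
`{V (e i) ≠ ⊤}`; `κ` is regular.  Let `k < j`, `k = e i`.  If `i ∈ H x` then
`V k x = trunc_k (U x)`: if `V k x ≠ ⊤` then `U x = V k x ≤ k`; if `V k x = ⊤` and `U x ≠ ⊤`,
`U x = V (e a) x`, `a ∈ H x`, then (with `m = max a i ∈ H x`, coherence of `e a` and `k` at `x`) `k < e a`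
and `trunc_k (U x) = V k x = ⊤` (`e a < k` would give `V (e a) x = trunc (V k x) = ⊤`).
So the exceptional set is contained in the union of: for each of the fewer than `κ` elements
`ξ ≤ i`, the sections at `ξ` of `{U ≠ ⊤}` and of `{V k ≠ ⊤}`; and for all `a, b ≤ i` with
`e a < e b` the exceptional set of `Coh (e a) (V (e a)) (V (e b))`.  Fewer than `κ` sets smaller than
`κ`. -/
def S_AMALG : Prop := ∀ (κ : Cardinal.{0}), κ.IsRegular → ∀ (I J : Type) [LinearOrder I]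
  [WellFoundedLT I] [LinearOrder J] [WellFoundedLT J], #I = κ → (∀ i : I, #(Iio i) < κ) →
  ∀ (j : J), #(Iio j) ≤ κ → ∀ V : J → I × I → WithTop J,
  (∀ k < j, ∀ x, V k x ≤ (k : WithTop J) ∨ V k x = ⊤) → (∀ k < j, Thin κ (V k)) →
  (∀ k l, k < l → l < j → Coh κ k (V k) (V l)) →
  ∃ U : I × I → WithTop J, (∀ x, U x < (j : WithTop J) ∨ U x = ⊤) ∧ Thin κ U ∧
    ∀ k < j, Coh κ k (V k) U

/-- JOB ADD.  A new set `C` meeting all the `B s`.
Proof.  There is a surjection `e : I → S` (`S` nonempty, `#S ≤ κ = #I`).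
For `ξ, i ∈ I` with `i < ξ` choose, if the section at `ξ` of `B (e i) ∖ {U ≠ ⊤}` is nonempty, a
point `c(i, ξ) = (ξ, η)` in it; `C` is the set of all these points.  The section of `C` at `ξ` has
at most `#(Iio ξ) < κ` points.  Let `s = e i`.  `κ` sections of `B s` have size `κ`; those at `ξ > i` are
still `κ` many (`#(Iic i) < κ`), and for them the section of `B s ∖ {U ≠ ⊤}` is nonempty (the section
of `{U ≠ ⊤}` is smaller than `κ`), so `C ∩ B s` contains a point `(ξ, η)` for `κ` many `ξ`; and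
`#(I × I) = κ`. -/
def S_ADD : Prop := ∀ (κ : Cardinal.{0}), κ.IsRegular → ∀ (I J : Type) [LinearOrder I]
  [WellFoundedLT I], #I = κ → (∀ i : I, #(Iio i) < κ) →
  ∀ U : I × I → WithTop J, Thin κ U → ∀ (S : Type) [Nonempty S], #S ≤ κ →
  ∀ B : S → Set (I × I), (∀ s, Big κ (B s)) →
  ∃ C : Set (I × I), (∀ x ∈ C, U x = ⊤) ∧ (∀ ξ : I, #{η : I // (ξ, η) ∈ C} < κ) ∧
    ∀ s, #{x : I × I // x ∈ C ∧ x ∈ B s} = κ

/-- JOB COMB (uses `S_AMALG`, `S_ADD` as hypotheses).  The coherent sequence.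
Proof.  Well-founded recursion on `j`: let `V j` be some `w` with
(a) `w x ≤ j` or `w x = ⊤`, (b) `Thin κ w`, (c) `Coh κ k (V k) w` for all `k < j`,
(d) `#{x | w x = j ∧ ∀ γ ∈ F, x ∈ D γ} = κ` for all finite `F ⊆ Iio j`, if there is one (else
anything); in Lean `WellFoundedLT.fix` and `WellFoundedLT.fix_eq`, or Zorn.  By strong induction
there always is one: `S_AMALG` gives `U`; `S_ADD` with `S` = finite subsets of `Iio j`
(at most `κ` many: `Cardinal.mk_finset_le...`, `#(Iio j) ≤ κ`, `κ` infinite), `B F = ⋂_(γ ∈ F) D γ`,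
gives `C`; put `w = j` on `C` and `w = U` elsewhere.  (c): `trunc_k (w x) = trunc_k (U x)` for `k < j`:
on `C` both are `⊤`.  (b): the sum of two cardinals smaller than `κ`. -/
def S_COMB : Prop := ∀ (κ : Cardinal.{0}), κ.IsRegular → ∀ (I J : Type) [LinearOrder I]
  [WellFoundedLT I] [LinearOrder J] [WellFoundedLT J], #I = κ → (∀ i : I, #(Iio i) < κ) →
  (∀ j : J, #(Iio j) ≤ κ) → ∀ D : J → Set (I × I),
  (∀ F : Finset J, Big κ (⋂ γ ∈ F, D γ)) →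
  ∃ V : J → I × I → WithTop J, (∀ j x, V j x ≤ (j : WithTop J) ∨ V j x = ⊤) ∧
    (∀ j, Thin κ (V j)) ∧ (∀ k j, k < j → Coh κ k (V k) (V j)) ∧
    ∀ (j : J) (F : Finset J), (∀ γ ∈ F, γ < j) →
      #{x : I × I // V j x = (j : WithTop J) ∧ ∀ γ ∈ F, x ∈ D γ} = κ

/-- JOB ULTRA.  An ultrafilter all of whose members are big; and ultrafilters avoiding small sets.
Proof.  (i) Let `R'` be the set of all `D` such that fewer than `κ` vertical sections of `D` have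
size `κ`.  It is closed under subsets and finite unions (`κ` infinite; a section of size `κ` of a
union: one of the two sections has size `κ`), and `univ ∉ R'`.  So the complements form a proper
filter; let `q` be an ultrafilter finer than it.  If `D ∈ q` then `D ∉ R'`, so at least `κ`, so
exactly `κ = #I`, sections have size `κ`.
(ii) The sets `C`, `D γ` and the complements of the sets smaller than `κ` have the finite
intersection property: a finite intersection contains `C ∩ ⋂_F D γ ∖ N` with `#N < κ`, and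
`#(C ∩ ⋂_F D γ) ≥ κ`. -/
def S_ULTRA : Prop :=
  (∀ (κ : Cardinal.{0}), ℵ₀ ≤ κ → ∀ I : Type, #I = κ →
    ∃ q : Ultrafilter (I × I), ∀ D ∈ q, Big κ D) ∧
  (∀ (κ : Cardinal.{0}), ℵ₀ ≤ κ → ∀ (X G : Type) (C : Set X) (D : G → Set X),
    (∀ F : Finset G, κ ≤ #{x : X // x ∈ C ∧ ∀ γ ∈ F, x ∈ D γ}) →
    ∃ p : Ultrafilter X, C ∈ p ∧ (∀ γ, D γ ∈ p) ∧ ∀ N : Set X, #N < κ → Nᶜ ∈ p)

/-! ## Part 4: `A_(κ⁺)(J)` is complemented in `ℓ_∞(κ × κ) / A_κ(κ × κ)` -/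

/-- `g` evaluated at `v`, with `g ⊤ = 0`. -/
def ev {𝕜 J : Type} [Zero 𝕜] (g : J → 𝕜) : WithTop J → 𝕜
  | none => 0
  | some j => g j

/-- JOB EMAP (uses `S_SAME`, `S_AKG` as hypotheses if wanted).  The embedding.
Proof.  The elements `g` of `A_(κ⁺)(J)` have supports of size `≤ κ` (`S_AKG` (iii), `κ⁺` is regular and
uncountable), so `g j = 0` for all `j > b` for some `b`.  For `g` and such `b` the function
`x ↦ ev g (V b x)` is bounded by `‖g‖`.  If `b < b'` and `g = 0` above `b` then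
`ev g (V b x) = ev g (V b' x)` outside the exceptional set of `Coh κ b (V b) (V b')`, so the
difference is in `A_κ(I × I) = ker π`.  So `E g = π (ev g ∘ V b)` does not depend on `b`; with a
common `b` it is additive and homogeneous; it is bounded by `‖π‖ ‖g‖`. -/
def S_EMAP : Prop := ∀ (𝕜 : Type) [RCLike 𝕜] (κ : Cardinal.{0}) (hκ : ℵ₀ ≤ κ)
  (hκ' : ℵ₀ ≤ Order.succ κ) (I J : Type) [LinearOrder J],
  (∀ S : Set J, #S ≤ κ → ∃ b, ∀ s ∈ S, s < b) →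
  ∀ V : J → I × I → WithTop J, (∀ j x, V j x ≤ (j : WithTop J) ∨ V j x = ⊤) →
  (∀ k j, k < j → Coh κ k (V k) (V j)) →
  ∀ (Q : Type) [NormedAddCommGroup Q] [NormedSpace 𝕜 Q] (π : Linf 𝕜 (I × I) →L[𝕜] Q),
  (∀ f ∈ A 𝕜 κ hκ (I × I), π f = 0) →
  ∃ E : A 𝕜 (Order.succ κ) hκ' J →L[𝕜] Q,
    ∀ (g : A 𝕜 (Order.succ κ) hκ' J) (b : J) (f : Linf 𝕜 (I × I)),
      (∀ j, b < j → (g : Linf 𝕜 J) j = 0) →
      (∀ x, f x = ev (fun j => (g : Linf 𝕜 J) j) (V b x)) → E g = π f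

/-- JOB PMAP (uses `S_ULIM` as hypothesis).  The projection.
Proof.  `r f j = lim_(p j) f − lim_q f` (`S_ULIM`).  It is bounded by `2 ‖f‖`.  For `ε > 0` the set
`S = {x | ‖f x − lim_q f‖ < ε/2}` is in `q`, so `S = D γ` for some `γ`, and for `j > γ`
`S ∈ p j`, so `‖r f j‖ ≤ ε/2`; so `{|r f| > ε} ⊆ Iic γ` has at most `κ` elements.  If `f ∈ A_κ(X)`
then for `ε > 0` the set `{|f| > ε}` is smaller than `κ`, so `|f| ≤ ε` on members of `p j` and `q`,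
so both limits are `0`. -/
def S_PMAP : Prop := ∀ (𝕜 : Type) [RCLike 𝕜] (κ : Cardinal.{0}) (hκ : ℵ₀ ≤ κ)
  (hκ' : ℵ₀ ≤ Order.succ κ) (X J : Type) [LinearOrder J],
  (∀ j : J, #(Iic j) ≤ κ) → ∀ (D : J → Set X) (q : Ultrafilter X) (p : J → Ultrafilter X),
  (∀ S ∈ q, ∃ γ, D γ = S) → (∀ j γ, γ < j → D γ ∈ p j) → (∀ N : Set X, #N < κ → Nᶜ ∈ q) →
  (∀ j, ∀ N : Set X, #N < κ → Nᶜ ∈ p j) →
  ∃ r : Linf 𝕜 X →L[𝕜] A 𝕜 (Order.succ κ) hκ' J,
    (∀ f ∈ A 𝕜 κ hκ X, r f = 0) ∧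
    ∀ (f : Linf 𝕜 X) (j : J) (a b : 𝕜), Tendsto (fun x => f x) (p j : Filter X) (𝓝 a) →
      Tendsto (fun x => f x) (q : Filter X) (𝓝 b) → (r f : Linf 𝕜 J) j = a - b

/-- JOB COMPL (uses `S_COMB`, `S_ULTRA`, `S_EMAP`, `S_PMAP`, `S_SAME`, `S_AKG` as hypotheses).
`A_(κ⁺)(κ⁺)` is complemented in `Q = ℓ_∞(κ × κ) / A_κ(κ × κ)` if `2^κ = κ⁺`.
Proof.  `J = (κ⁺).ord.ToType`: `#(Iio j), #(Iic j) ≤ κ`, and every subset of size `≤ κ` is strictly
bounded (cofinality `κ⁺`; or: otherwise `J` is the union of `≤ κ` sets `Iic s` of size `≤ κ`).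
Take `q` from `S_ULTRA` (i).  `q` has at least one and at most `2^κ = κ⁺ = #J` members; let
`D : J → Set (I × I)` be a surjection onto the members of `q`.  Finite intersections of the `D γ` are
in `q`, so big.  `S_COMB` gives `V`.  For each `j`, `S_ULTRA` (ii) with `C = {x | V j x = j}` and
`D γ`, `γ < j`, gives `p j`.  `q` contains the complements of the sets smaller than `κ` (such a set is
not big, as `κ` is infinite).  `S_EMAP` gives `E`, `S_PMAP` and `S_SAME` (i) give `r` on `Q`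
(`ker π = A_κ`).
`r (E g) = g`: given `j`, choose `b > j` with `g = 0` above `b`; `E g = π f`, `f x = ev g (V b x)`
(bounded by `‖g‖`, so in `ℓ_∞`).  Along `q` the limit of `f` is `0`: `f = 0` on `{V b = ⊤}`,
and `{V b ≠ ⊤}` is thin, so not big, so not in `q`.  Along `p j` the limit is `g j`:
`{V j = j} ∈ p j` and up to fewer than `κ` points `V j x = j` implies `V b x = j` (`Coh κ j (V j) (V b)`). -/
def S_COMPL : Prop := ∀ (𝕜 : Type) [RCLike 𝕜] (κ : Cardinal.{0}) (hκ : ℵ₀ ≤ κ)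
  (hκ' : ℵ₀ ≤ Order.succ κ), κ.IsRegular → (2 : Cardinal.{0}) ^ κ = Order.succ κ →
  ∀ (I : Type) [LinearOrder I] [WellFoundedLT I], #I = κ → (∀ i : I, #(Iio i) < κ) →
  ∀ (Q : Type) [NormedAddCommGroup Q] [NormedSpace 𝕜 Q] [CompleteSpace Q]
  (π : Linf 𝕜 (I × I) →L[𝕜] Q), SES (A 𝕜 κ hκ (I × I)).subtypeL π →
  ∃ (J : Type) (E : A 𝕜 (Order.succ κ) hκ' J →L[𝕜] Q)
    (r : Q →L[𝕜] A 𝕜 (Order.succ κ) hκ' J), #J = Order.succ κ ∧ ∀ g, r (E g) = g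

/-! ## Part 5: `ℓ_∞(Γ) / A_κ(Γ)` is not injective -/

/-- JOB TREE.  An almost disjoint family of size `2^κ` if `2^μ ≤ κ` for all `μ < κ`.
Proof.  `I = κ.ord.ToType`, `T = (I → Bool)`.  Nodes: `N = Σ i : I, (Iio i → Bool)`,
`#N ≤ κ · κ = κ` (each `2^#(Iio i) ≤ κ`).  Branches `B t = {(i, t|_(Iio i)) : i ∈ I} ⊆ N`, of size `κ`
(so `#N = κ`); if `s i0 ≠ t i0` then `B s ∩ B t ⊆ {nodes with i ≤ i0 on B s}`, of size
`≤ #(Iic i0) < κ`.  Transport by a bijection `N ≃ Γ`. -/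
def S_TREE : Prop := ∀ κ : Cardinal.{0}, ℵ₀ ≤ κ → (∀ μ < κ, (2 : Cardinal.{0}) ^ μ ≤ κ) →
  ∀ Γ : Type, #Γ = κ → ∃ (T : Type) (C : T → Set Γ), #T = (2 : Cardinal.{0}) ^ κ ∧
    (∀ t, #(C t) = κ) ∧ ∀ s t, s ≠ t → #(C s ∩ C t : Set Γ) < κ

/-- JOB CZ (uses `S_SAME` if wanted).  If `Q = ℓ_∞(Γ)/A_κ(Γ)` is injective, `e_t ↦ π(χ_(C t))` extends to
`ℓ_∞(T)`.
Proof.  Let `F ⊆ ℓ_∞(T)` be the subspace of finitely supported functions, `X` its closure.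
For `a ∈ F` put `u a = Σ_t a t • π(χ_(C t)) = π(Σ_t a t • χ_(C t))`.  Up to the union `N` of the finitely
many sets `C s ∩ C t` (`s ≠ t` in the support of `a`), `#N < κ`, the function `Σ_t a t χ_(C t)` has
absolute value `≤ ‖a‖`; changing it on `N` to `0` changes it by an element of `A_κ`; so
`‖u a‖ ≤ ‖π‖ ‖a‖`.  `u` extends to `X` (`ContinuousLinearMap.extend`, `Q` is complete), and, `Q` being
injective, to `ℓ_∞(T)`. -/
def S_CZ : Prop := ∀ (𝕜 : Type) [RCLike 𝕜] (κ : Cardinal.{0}) (hκ : ℵ₀ ≤ κ) (Γ T : Type)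
  (C : T → Set Γ), (∀ s t, s ≠ t → #(C s ∩ C t : Set Γ) < κ) →
  ∀ (Q : Type) [NormedAddCommGroup Q] [NormedSpace 𝕜 Q] [CompleteSpace Q]
  (π : Linf 𝕜 Γ →L[𝕜] Q), SES (A 𝕜 κ hκ Γ).subtypeL π → Inj 𝕜 Q →
  ∃ v : Linf 𝕜 T →L[𝕜] Q, ∀ (t : T) (a : Linf 𝕜 T) (h : Linf 𝕜 Γ),
    a t = 1 → (∀ s, s ≠ t → a s = 0) → (∀ γ ∈ C t, h γ = 1) → (∀ γ, γ ∉ C t → h γ = 0) →
    v a = π h

/-- JOB ROS.  Rosenthal's disjointification.
Proof.  For `S ⊆ T` let `N_t(S) = sup {‖φ_t f‖ : ‖f‖ ≤ 1, f = 0 outside S} ≤ M`; `N_t` is monotone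
and `N_t(S) + N_t(S') ≤ N_t(S ∪ S')` for disjoint `S, S'` (multiply `f, f'` by unimodular scalars such
that `φ_t f, φ_t f' ≥ 0` and add).  Claim by induction on `n`: if `T₁ ⊆ T`, `#T₁ = #T` and
`N_t(T₁) ≤ n ε` for all `t ∈ T₁`, then there is `T' ⊆ T₁` as wanted.  `n = 0, 1`: `T' = T₁`.
Step: partition `T₁` into `#T` sets `S_i` of size `#T` (`#T · #T = #T`).  If for some `i` all `t ∈ S_i`
have `N_t(S_i ∖ {t}) ≤ ε` take `T' = S_i`.  Otherwise choose for each `i` some `t_i ∈ S_i` with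
`N_(t_i)(S_i ∖ {t_i}) > ε`, and let `T₂ = {t_i}`, of size `#T`.  As `T₂ ∖ {t_i}` and `S_i` are disjoint,
`N_(t_i)(T₂ ∖ {t_i}) ≤ (n + 1) ε − ε = n ε`.  (So use `N_t(T₁ ∖ {t}) ≤ n ε` as induction
hypothesis: in the step `(T₂ ∖ {t_i}) ∪ (S_i ∖ {t_i}) ⊆ T₁ ∖ {t_i}`, disjoint.)  Start with
`n ≥ M / ε`, `T₁ = T`. -/
def S_ROS : Prop := ∀ (𝕜 : Type) [RCLike 𝕜] (T : Type) [Infinite T]
  (φ : T → (Linf 𝕜 T →L[𝕜] 𝕜)) (M : ℝ), (∀ t f, ‖φ t f‖ ≤ M * ‖f‖) → ∀ ε : ℝ, 0 < ε →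
  ∃ T' : Set T, #T' = #T ∧ ∀ t ∈ T', ∀ f : Linf 𝕜 T, (∀ s, s ∉ T' ∨ s = t → f s = 0) →
    ‖φ t f‖ ≤ ε * ‖f‖

/-- JOB NIQ (uses `S_CZ`, `S_ROS`, `S_ULIM`, `S_ULTRA`, `S_SAME` as hypotheses).
Proof.  Suppose `Inj Q`; `S_CZ` gives `v`.  For each `t` let `p_t` be an ultrafilter on `Γ`
containing `C t` and the complements of all sets smaller than `κ` (`S_ULTRA` (ii) with `D` empty),
`L_t` its limit (`S_ULIM`); it vanishes on `A_κ(Γ)`.  There is `c` such that every `y ∈ Q` is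
`π x` with `‖x‖ ≤ c ‖y‖` (open mapping, `ContinuousLinearMap.exists_preimage_norm_le`), and `L_t` factors
as `φ_t ∘ π` with `‖φ_t y‖ ≤ c ‖y‖` (same `c` for all `t`).  Put `ψ_t = φ_t ∘ v` on `ℓ_∞(T)`:
`‖ψ_t‖ ≤ c ‖v‖`, `ψ_t(e_t) = L_t(χ_(C t)) = 1`.  `S_ROS` with `ε = 1/2` gives `T'`.  For
`S ⊆ T'` let `y_S = v(χ_S)`.  If `t ∈ S ∖ S'`, `S, S' ⊆ T'`, then `χ_S − χ_(S')` is `e_t` plus
a function of norm `≤ 1` vanishing at `t` and outside `T'`, so `‖ψ_t(χ_S − χ_(S'))‖ ≥ 1/2`, so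
`y_S ≠ y_(S')`.  So `2^#T = 2^#T' ≤ #Q ≤ #(Linf 𝕜 Γ)`, a contradiction. -/
def S_NIQ : Prop := ∀ (𝕜 : Type) [RCLike 𝕜] (κ : Cardinal.{0}) (hκ : ℵ₀ ≤ κ) (Γ T : Type)
  (C : T → Set Γ), Infinite T → (∀ t, κ ≤ #(C t)) → (∀ s t, s ≠ t → #(C s ∩ C t : Set Γ) < κ) →
  #(Linf 𝕜 Γ) < (2 : Cardinal.{0}) ^ #T →
  ∀ (Q : Type) [NormedAddCommGroup Q] [NormedSpace 𝕜 Q] [CompleteSpace Q]
  (π : Linf 𝕜 Γ →L[𝕜] Q), SES (A 𝕜 κ hκ Γ).subtypeL π → ¬ Inj 𝕜 Q

/-- JOB CARD.  `#ℓ_∞(Γ) ≤ 2^#Γ`, and cardinal arithmetic from GCH below `ℵ_m`.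
Proof.  (i) `#𝕜 ≤ 2^ℵ₀` (`z ↦ (re z, im z)` into `ℝ × ℝ`), `(2^ℵ₀)^#Γ = 2^#Γ`.
(ii) `μ < ℵ_m`: `μ` is finite, or `μ = ℵ_j` with `j < m`, `2^μ = ℵ_(j+1) ≤ ℵ_m`. -/
def S_CARD : Prop :=
  (∀ (𝕜 : Type) [RCLike 𝕜] (Γ : Type), Infinite Γ → #(Linf 𝕜 Γ) ≤ (2 : Cardinal.{0}) ^ #Γ) ∧
  (∀ m : ℕ, (∀ j < m, (2 : Cardinal.{0}) ^ ℵ_ (j : Ordinal) = ℵ_ ((j + 1 : ℕ) : Ordinal)) →
    ∀ μ : Cardinal.{0}, μ < ℵ_ (m : Ordinal) → (2 : Cardinal.{0}) ^ μ ≤ ℵ_ (m : Ordinal))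

end Q96.ID
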